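import Mathlib

/-!
# The recursion of Spitzer for the minimum of a random walk (algebraic form)
-/

set_option autoImplicit false

namespace Pool.Agent.H623.KA

open Finset NNReal

/-- signed measures with finite support on the nonnegative reals, with the multiplicative convolution -/
abbrev A := MonoidAlgebra ℝ ℝ≥0

/-- the image under `y ↦ min y 1` -/
noncomputable def P : A →ₗ[ℝ] A where
  toFun a := MonoidAlgebra.mapDomain (fun y => min y 1) a
  map_add' a b := MonoidAlgebra.mapDomain_add _ _ _
  map_smul' c a := by
    ext x
    simp [MonoidAlgebra.mapDomain, Finsupp.mapDomain_smul]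

theorem P_single (y : ℝ≥0) (r : ℝ) : P (MonoidAlgebra.single y r) = MonoidAlgebra.single (min y 1) r :=
  MonoidAlgebra.mapDomain_single

theorem rb_single (x y : ℝ≥0) : P (MonoidAlgebra.single x 1) * P (MonoidAlgebra.single y 1) =
    P (MonoidAlgebra.single x 1 * P (MonoidAlgebra.single y 1)) +
    P (P (MonoidAlgebra.single x 1) * MonoidAlgebra.single y 1) -
    P (MonoidAlgebra.single x 1 * MonoidAlgebra.single y 1) := by
  simp only [P_single, MonoidAlgebra.single_mul_single, mul_one]
  rcases le_total x 1 with hx | hx <;> rcases le_total y 1 with hy | hy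
  · rw [min_eq_left hx, min_eq_left hy, min_eq_left (mul_le_one' hx hy)]
    abel
  · rw [min_eq_left hx, min_eq_right hy, mul_one, min_eq_left hx]
    abel
  · rw [min_eq_right hx, min_eq_left hy, one_mul, min_eq_left hy]
    abel
  · rw [min_eq_right hx, min_eq_right hy, mul_one, one_mul, mul_one, min_eq_right hx, min_eq_right hy,
      min_eq_right (one_le_mul hx hy)]
    abel

/-- the Rota-Baxter identity -/
theorem rb (a b : A) : P a * P b = P (a * P b) + P (P a * b) - P (a * b) := by
  induction a using MonoidAlgebra.induction_on with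
  | of x =>
    induction b using MonoidAlgebra.induction_on with
    | of y => exact rb_single x y
    | add b b' h h' => 
      simp only [map_add, mul_add, h, h']
      abel
    | smul r b h =>
      simp only [map_smul, mul_smul_comm, h, smul_add, smul_sub]
  | add a a' h h' =>
    simp only [map_add, add_mul, h, h']
    abel
  | smul r a h =>
    simp only [map_smul, smul_mul_assoc, h, smul_add, smul_sub]

variable (X : A)

/-- the laws of the minima -/
noncomputable def u : ℕ → A
  | 0 => 1
  | n + 1 => P (X * u n)

/-- the laws of the truncated partial products -/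
noncomputable def c (k : ℕ) : A := P (X ^ k)

/-- **the recursion of Spitzer** -/
theorem spitzer (n : ℕ) : (n : ℝ) • u X n = ∑ k ∈ range n, c X (k + 1) * u X (n - 1 - k) := by
  induction n with
  | zero => simp
  | succ n ih =>
    have h1 : ∀ k ∈ range n, c X (k + 1) * u X (n - k) = P (X * (c X (k + 1) * u X (n - 1 - k))) +
        (P (X ^ (k + 1) * u X (n - k)) - P (X ^ (k + 2) * u X (n - 1 - k))) := by
      intro k hk
      rw [mem_range] at hk
      have e1 : u X (n - k) = P (X * u X (n - 1 - k)) := by
        have : n - k = (n - 1 - k) + 1 := by omega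
        rw [this, u]
      conv_lhs => rw [e1]
      unfold c
      rw [rb, ← e1]
      have e2 : P (X ^ (k + 1)) * (X * u X (n - 1 - k)) = X * (P (X ^ (k + 1)) * u X (n - 1 - k)) := by ring
      have e3 : X ^ (k + 1) * (X * u X (n - 1 - k)) = X ^ (k + 2) * u X (n - 1 - k) := by ring
      rw [e2, e3]
      abel
    have h2 : ∑ k ∈ range n, (P (X ^ (k + 1) * u X (n - k)) - P (X ^ (k + 2) * u X (n - 1 - k))) =
        P (X ^ 1 * u X n) - P (X ^ (n + 1) * u X 0) := by
      have h3 : ∀ k ∈ range n, P (X ^ (k + 1) * u X (n - k)) - P (X ^ (k + 2) * u X (n - 1 - k)) =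
          (fun k => P (X ^ (k + 1) * u X (n - k))) k - (fun k => P (X ^ (k + 1) * u X (n - k))) (k + 1) := by
        intro k hk
        have : n - 1 - k = n - (k + 1) := by omega
        simp only [this]
      rw [sum_congr rfl h3, sum_range_sub']
      simp
    rw [sum_range_succ]
    have e4 : ∀ k, n + 1 - 1 - k = n - k := fun k => by omega
    simp only [e4]
    rw [sum_congr rfl h1, sum_add_distrib, h2, ← map_sum, ← mul_sum, ← ih, Nat.sub_self]
    have e5 : c X (n + 1) * u X 0 = P (X ^ (n + 1) * u X 0) := by
      unfold c
      rw [u, mul_one, mul_one]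
    rw [e5, mul_smul_comm, map_smul, pow_one]
    have e6 : u X (n + 1) = P (X * u X n) := rfl
    rw [e6]
    push_cast
    rw [add_smul, one_smul]
    abel

end Pool.Agent.H623.KA
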