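import Pool.Agent.H623.KA.K1
import Pool.Agent.H623.TG.B

/-!
# The mean share as an expectation of Spitzer type
-/

set_option autoImplicit false

namespace Pool.Agent.H623.KA

open Finset NNReal
open Pool.Agent.H623.TG (mn on kap)

/-- the law of one step: the factors `2` and `2/3` with weights `1/2` -/
noncomputable def X : A := MonoidAlgebra.single 2 (1 / 2) + MonoidAlgebra.single (2 / 3) (1 / 2)

theorem mn_step {o o' : ℕ → ℕ} {β : ℕ} (h0 : o' 0 = 0) (h : ∀ k, o (k + 1) = β + o' k) (M : ℕ) :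
    mn o (M + 1) = 1 / 3 ^ β * min 1 (2 * mn o' M) := by
  have hb : (0 : ℝ) ≤ 1 / 3 ^ β := by positivity
  induction M with
  | zero =>
    have h1 : (1 : ℝ) / 3 ^ β ≤ 1 := by
      rw [div_le_one (by positivity)]
      exact one_le_pow₀ (by norm_num)
    rw [mn, mn, mn, h 0, h0, add_zero, pow_zero, min_eq_right h1, mul_one, min_eq_left (by norm_num), mul_one]
  | succ M ih =>
    have e1 : mn o (M + 1 + 1) = min (mn o (M + 1)) (2 ^ (M + 1) / 3 ^ o (M + 1 + 1)) := rfl
    have e2 : mn o' (M + 1) = min (mn o' M) (2 ^ M / 3 ^ o' (M + 1)) := rfl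
    rw [e1, ih, e2, h (M + 1)]
    have e3 : (2 : ℝ) ^ (M + 1) / 3 ^ (β + o' (M + 1)) = 1 / 3 ^ β * (2 * (2 ^ M / 3 ^ o' (M + 1))) := by
      rw [pow_succ, pow_add]
      field_simp
    rw [e3, ← mul_min_of_nonneg _ _ hb, mul_min_of_nonneg _ _ (by norm_num : (0 : ℝ) ≤ 2), ← min_assoc]

theorem on_cons {K : ℕ} (b : Bool) (w : Fin K → Bool) (k : ℕ) :
    on (Fin.cons b w : Fin (K + 1) → Bool) (k + 1) = (if b then 1 else 0) + on w k := by
  unfold on
  rw [card_filter, card_filter, Fin.sum_univ_succ]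
  congr 1
  · cases b <;> simp
  · refine sum_congr rfl fun i _ => ?_
    simp

/-- the truncated minimum -/
noncomputable def hv {K : ℕ} (w : Fin K → Bool) : ℝ≥0 :=
  ⟨min 1 (2 * mn (on w) K), le_min zero_le_one (mul_nonneg (by norm_num) (TG.mn_pos _ _).le)⟩

theorem on_zero {K : ℕ} (w : Fin K → Bool) : on w 0 = 0 := by
  unfold on
  simp

theorem mn_cons {K : ℕ} (b : Bool) (w : Fin K → Bool) :
    mn (on (Fin.cons b w : Fin (K + 1) → Bool)) (K + 1) = 1 / 3 ^ (if b then 1 else 0) * (hv w : ℝ) :=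
  mn_step (on_zero w) (on_cons b w) K

theorem hv_cons {K : ℕ} (b : Bool) (w : Fin K → Bool) :
    hv (Fin.cons b w : Fin (K + 1) → Bool) = min ((if b then 2 / 3 else 2) * hv w) 1 := by
  apply NNReal.coe_injective
  rw [NNReal.coe_min]
  show min 1 (2 * mn (on (Fin.cons b w : Fin (K + 1) → Bool)) (K + 1)) = _
  rw [mn_cons, min_comm]
  cases b
  · simp
  · simp only [if_true]
    congr 1
    push_cast
    ring

theorem hv_zero (w : Fin 0 → Bool) : hv w = 1 := by
  apply NNReal.coe_injective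
  show min 1 (2 * mn (on w) 0) = _
  rw [mn]
  norm_num

theorem sum_cons {K : ℕ} {M : Type*} [AddCommMonoid M] (F : (Fin (K + 1) → Bool) → M) :
    ∑ w, F w = ∑ w : Fin K → Bool, (F (Fin.cons true w) + F (Fin.cons false w)) := by
  rw [← (Fin.consEquiv fun _ => Bool).sum_comp, Fintype.sum_prod_type, Fintype.sum_bool, ← sum_add_distrib]
  rfl

/-- the law of the truncated minimum -/
theorem law (K : ℕ) : u X K = ∑ w : Fin K → Bool, MonoidAlgebra.single (hv w) ((1 / 2 : ℝ) ^ K) := by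
  induction K with
  | zero =>
    rw [u]
    simp only [univ_unique, sum_singleton, hv_zero, pow_zero]
    rfl
  | succ K ih =>
    rw [u, ih, sum_cons, mul_sum, map_sum]
    refine sum_congr rfl fun w _ => ?_
    rw [hv_cons, hv_cons, X, add_mul, MonoidAlgebra.single_mul_single, MonoidAlgebra.single_mul_single, map_add,
      P_single, P_single, add_comm]
    have e : (1 / 2 : ℝ) * (1 / 2) ^ K = (1 / 2) ^ (K + 1) := by rw [pow_succ]; ring
    rw [e]
    simp

/-- the evaluation of measures at the identity function -/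
noncomputable def φ : A →ₐ[ℝ] ℝ := MonoidAlgebra.lift ℝ ℝ ℝ≥0 (NNReal.toRealHom : ℝ≥0 →* ℝ)

theorem φ_single (y : ℝ≥0) (r : ℝ) : φ (MonoidAlgebra.single y r) = r * y := by
  unfold φ
  rw [MonoidAlgebra.lift_single]
  rfl

/-- the means -/
noncomputable def m (n : ℕ) : ℝ := φ (u X n)

theorem m_eq (K : ℕ) : m K = (∑ w : Fin K → Bool, (hv w : ℝ)) / 2 ^ K := by
  unfold m
  rw [law, map_sum, sum_div]
  refine sum_congr rfl fun w _ => ?_
  rw [φ_single, one_div, inv_pow]
  ring

theorem kap_m (K : ℕ) : kap (K + 1) = 2 / 3 * m K := by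
  unfold kap
  rw [sum_cons, m_eq, sum_div, sum_div, mul_sum]
  refine sum_congr rfl fun w _ => ?_
  rw [mn_cons, mn_cons, pow_succ]
  simp only [if_true, if_false, Bool.false_eq_true, pow_zero, pow_one]
  field_simp
  ring

/-- the means of the truncated partial products -/
noncomputable def cc (k : ℕ) : ℝ := φ (c X k)

theorem cc_eq (k : ℕ) : cc k = ∑ j ∈ range (k + 1), (k.choose j : ℝ) / 2 ^ k * min (2 ^ k / 3 ^ j) 1 := by
  unfold cc c
  rw [X, add_comm, add_pow, map_sum, map_sum]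
  refine sum_congr rfl fun j hj => ?_
  rw [mem_range] at hj
  rw [MonoidAlgebra.single_pow, MonoidAlgebra.single_pow, MonoidAlgebra.single_mul_single, mul_comm,
    ← nsmul_eq_mul, map_nsmul, map_nsmul, P_single, φ_single, nsmul_eq_mul]
  have e1 : (1 / 2 : ℝ) ^ j * (1 / 2) ^ (k - j) = 1 / 2 ^ k := by
    rw [← pow_add, one_div, inv_pow, one_div]
    congr 3
    omega
  have e2 : ((2 / 3 : ℝ≥0) ^ j * 2 ^ (k - j) : ℝ≥0) = 2 ^ k / 3 ^ j := by
    rw [div_pow, div_mul_eq_mul_div, ← pow_add]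
    congr 2
    omega
  rw [e1, e2]
  push_cast
  ring

/-- the recursion of Spitzer for the means -/
theorem m_rec (n : ℕ) : (n : ℝ) * m n = ∑ k ∈ range n, cc (k + 1) * m (n - 1 - k) := by
  have h := congrArg φ (spitzer X n)
  rw [map_smul, map_sum, smul_eq_mul] at h
  unfold m cc
  rw [h]
  refine sum_congr rfl fun k _ => ?_
  rw [map_mul]

end Pool.Agent.H623.KA
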