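import Pool.Agent.H623.KA.K2

/-!
# The constant in closed form
-/

set_option autoImplicit false

namespace Pool.Agent.H623.KA

open Finset Filter Topology
open Pool.Agent.H623.TG (mn on kap)

/-- the coefficients -/
noncomputable def ak (k : ℕ) : ℝ := ∑ j ∈ range (k + 1), (k.choose j : ℝ) * max 0 (1 / 2 ^ k - 1 / 3 ^ j)

theorem ak_eq (k : ℕ) : ak k = 1 - cc k := by
  have h1 : (1 : ℝ) = ∑ j ∈ range (k + 1), (k.choose j : ℝ) / 2 ^ k := by
    rw [← sum_div]
    have h := Nat.sum_range_choose k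
    have h2 : (∑ j ∈ range (k + 1), (k.choose j : ℝ)) = 2 ^ k := by exact_mod_cast h
    rw [h2, div_self (by positivity)]
  rw [cc_eq]
  nth_rw 1 [h1]
  rw [← sum_sub_distrib]
  unfold ak
  refine sum_congr rfl fun j _ => ?_
  have e : (k.choose j : ℝ) / 2 ^ k - (k.choose j : ℝ) / 2 ^ k * min (2 ^ k / 3 ^ j) 1 =
      (k.choose j : ℝ) * (1 / 2 ^ k * (1 - min (2 ^ k / 3 ^ j) 1)) := by ring
  rw [e]
  congr 1
  have h2 : (0 : ℝ) < 2 ^ k := by positivity
  have h3 : (0 : ℝ) < 3 ^ j := by positivity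
  rcases le_total ((2 : ℝ) ^ k) (3 ^ j) with h | h
  · have e1 : min ((2 : ℝ) ^ k / 3 ^ j) 1 = 2 ^ k / 3 ^ j := min_eq_left (by rw [div_le_one h3]; exact h)
    rw [e1, max_eq_right]
    · field_simp
    · have := one_div_le_one_div_of_le h2 h
      linarith
  · have e1 : min ((2 : ℝ) ^ k / 3 ^ j) 1 = 1 := min_eq_right (by rw [one_le_div h3]; exact h)
    rw [e1, max_eq_left]
    · ring
    · have := one_div_le_one_div_of_le h3 h
      linarith

theorem ak_nonneg (k : ℕ) : 0 ≤ ak k := sum_nonneg fun j _ => mul_nonneg (Nat.cast_nonneg _) (le_max_left _ _)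

/-- the base of the exponential bound -/
noncomputable def ρ : ℝ := (1 + √3) / (2 * √2)

theorem ρ_pos : 0 < ρ := by unfold ρ; positivity

theorem ρ_lt : ρ ≤ 0.96593 := by
  have h3 : √3 ^ 2 = 3 := Real.sq_sqrt (by norm_num)
  have h2 : √2 ^ 2 = 2 := Real.sq_sqrt (by norm_num)
  have h30 : √3 ≤ 1.7320509 := by
    rw [Real.sqrt_le_left (by norm_num)]; norm_num
  have e : ρ ^ 2 = (2 + √3) / 4 := by
    unfold ρ
    rw [div_pow, mul_pow, h2, add_sq, h3]
    ring
  refine le_of_sq_le_sq (a := ρ) (b := 0.96593) ?_ (by norm_num)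
  rw [e]
  linarith [show ((2 : ℝ) + 1.7320509) / 4 ≤ 0.96593 ^ 2 by norm_num]

theorem cub {z : ℝ} (hz : 0 ≤ z) : z * (1 - z ^ 2) ≤ 0.385 := by
  nlinarith [mul_nonneg (sq_nonneg (z - 0.5774)) (show 0 ≤ z + 2 * 0.5774 by linarith)]

theorem ak_le (k : ℕ) : ak k ≤ 0.385 * ρ ^ k := by
  have hs : ∀ j ∈ range (k + 1), (k.choose j : ℝ) * max 0 (1 / 2 ^ k - 1 / 3 ^ j) ≤
      0.385 * ((√3) ^ j * 1 ^ (k - j) * (k.choose j : ℝ)) / (2 * √2) ^ k := by
    intro j _
    have h2 : (0 : ℝ) < 2 ^ k := by positivity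
    have h3 : (0 : ℝ) < 3 ^ j := by positivity
    have hs2 : (√2 ^ k) ^ 2 = (2 : ℝ) ^ k := by rw [← pow_mul, mul_comm, pow_mul, Real.sq_sqrt (by norm_num)]
    have hs3 : (√3 ^ j) ^ 2 = (3 : ℝ) ^ j := by rw [← pow_mul, mul_comm, pow_mul, Real.sq_sqrt (by norm_num)]
    have hp2 : (0 : ℝ) < √2 ^ k := by positivity
    have hp3 : (0 : ℝ) < √3 ^ j := by positivity
    have key : max 0 (1 / 2 ^ k - 1 / 3 ^ j) ≤ 0.385 * √3 ^ j / (2 * √2) ^ k := by
      apply max_le (by positivity)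
      have h4 := cub (z := √2 ^ k / √3 ^ j) (by positivity)
      rw [div_pow, hs2, hs3] at h4
      rw [mul_pow]
      have e1 : (1 : ℝ) / 2 ^ k - 1 / 3 ^ j = (√2 ^ k / √3 ^ j * (1 - 2 ^ k / 3 ^ j)) * (√3 ^ j / (2 ^ k * √2 ^ k)) := by
        field_simp
      rw [e1]
      calc _ ≤ 0.385 * (√3 ^ j / (2 ^ k * √2 ^ k)) := mul_le_mul_of_nonneg_right h4 (by positivity)
        _ = _ := by ring
    calc _ ≤ (k.choose j : ℝ) * (0.385 * √3 ^ j / (2 * √2) ^ k) := mul_le_mul_of_nonneg_left key (Nat.cast_nonneg _)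
      _ = _ := by rw [one_pow]; ring
  refine (sum_le_sum hs).trans (le_of_eq ?_)
  rw [← sum_div, ← mul_sum, ← add_pow, mul_div_assoc, ← div_pow]
  congr 2
  unfold ρ
  ring

theorem m_zero : m 0 = 1 := by
  rw [m_eq]
  simp [hv_zero]

theorem m_anti : Antitone m := by
  intro a b hab
  have h := TG.kap_anti (Nat.add_le_add_right hab 1)
  rw [kap_m, kap_m] at h
  linarith

/-- the differences -/
noncomputable def f : ℕ → ℝ
  | 0 => m 0
  | n + 1 => m (n + 1) - m n

theorem f_sum (n : ℕ) : ∑ k ∈ range (n + 1), f k = m n := by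
  induction n with
  | zero => simp [f]
  | succ n ih => rw [sum_range_succ, ih, f]; ring

theorem f_rec (n : ℕ) : ((n : ℝ) + 1) * f (n + 1) = - ∑ k ∈ range (n + 1), ak (k + 1) * f (n - k) := by
  have h1 := m_rec (n + 1)
  have h2 := m_rec n
  have e1 : ∑ k ∈ range (n + 1), ak (k + 1) * f (n - k) = m n - ∑ k ∈ range (n + 1), cc (k + 1) * f (n - k) := by
    rw [← f_sum n, ← sum_range_reflect (fun k => f k) (n + 1), ← sum_sub_distrib]
    refine sum_congr rfl fun k _ => ?_
    have e : n + 1 - 1 - k = n - k := by omega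
    rw [ak_eq, e]
    ring
  have e2 : ∑ k ∈ range (n + 1), cc (k + 1) * f (n - k) = ((n : ℝ) + 1) * m (n + 1) - n * m n := by
    push_cast at h1
    rw [h1, h2, sum_range_succ, sum_range_succ, Nat.sub_self]
    have e4 : ∀ k ∈ range n, cc (k + 1) * f (n - k) = cc (k + 1) * m (n - k) - cc (k + 1) * m (n - 1 - k) := by
      intro k hk
      rw [mem_range] at hk
      have e5 : n - k = (n - 1 - k) + 1 := by omega
      rw [e5, f]
      ring
    rw [sum_congr rfl e4, sum_sub_distrib]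
    show _ + cc (n + 1) * m 0 = _
    ring
  rw [e1, e2, f]
  ring

theorem abs_f_sum (n : ℕ) : ∑ k ∈ range (n + 1), |f k| ≤ 2 := by
  have h : ∑ k ∈ range (n + 1), |f k| = 2 - m n := by
    induction n with
    | zero => simp [f, m_zero]; norm_num
    | succ n ih =>
      rw [sum_range_succ, ih, f, abs_of_nonpos (by linarith [m_anti (Nat.le_succ n)])]
      ring
  rw [h]
  have h2 := TG.kap_ge (n + 1)
  rw [kap_m] at h2
  linarith

theorem abs_f_summable : Summable fun n => |f n| := by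
  refine summable_of_sum_range_le (c := 2) (fun _ => abs_nonneg _) fun n => ?_
  refine (sum_le_sum_of_subset_of_nonneg (range_mono (Nat.le_succ n)) fun _ _ _ => abs_nonneg _).trans (abs_f_sum n)

theorem f_le (n : ℕ) : |f n| ≤ 2 :=
  (single_le_sum (f := fun k => |f k|) (fun _ _ => abs_nonneg _) (mem_range.2 (Nat.lt_succ_self n))).trans (abs_f_sum n)

/-- the derivative of a power series with bounded coefficients -/
theorem deriv_ps {b : ℕ → ℝ} {C : ℝ} (hb : ∀ n, |b n| ≤ C) {t : ℝ} (ht : |t| < 1) :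
    HasDerivAt (fun t => ∑' n, b n * t ^ n) (∑' n : ℕ, ((n : ℝ) + 1) * b (n + 1) * t ^ n) t := by
  obtain ⟨r, hr1, hr2⟩ := exists_between ht
  have hr0 : 0 < r := (abs_nonneg t).trans_lt hr1
  have hs : Summable fun n : ℕ => C / r * ((n : ℝ) ^ 1 * r ^ n) :=
    (summable_pow_mul_geometric_of_norm_lt_one 1 (by rw [Real.norm_eq_abs, abs_of_pos hr0]; exact hr2)).mul_left _
  have hC : 0 ≤ C := (abs_nonneg _).trans (hb 0)
  have hg : ∀ (n : ℕ) (y : ℝ), y ∈ Metric.ball (0 : ℝ) r → ‖b n * (n * y ^ (n - 1))‖ ≤ C / r * ((n : ℝ) ^ 1 * r ^ n) := by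
    intro n y hy
    rw [mem_ball_zero_iff, Real.norm_eq_abs] at hy
    rw [norm_mul, norm_mul, norm_pow, Real.norm_eq_abs, Real.norm_eq_abs, Real.norm_eq_abs, Nat.abs_cast]
    rcases Nat.eq_zero_or_pos n with rfl | hn
    · simp
    · have h1 : |y| ^ (n - 1) ≤ r ^ (n - 1) := pow_le_pow_left₀ (abs_nonneg _) hy.le _
      have h2 : r ^ n = r ^ (n - 1) * r := by
        rw [← pow_succ]; congr 1; omega
      calc |b n| * (n * |y| ^ (n - 1)) ≤ C * (n * r ^ (n - 1)) :=
            mul_le_mul (hb n) (mul_le_mul_of_nonneg_left h1 (Nat.cast_nonneg _)) (by positivity) hC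
        _ = _ := by rw [h2]; field_simp
  have h := hasDerivAt_tsum_of_isPreconnected (g := fun (n : ℕ) (y : ℝ) => b n * y ^ n)
    (g' := fun (n : ℕ) (y : ℝ) => b n * (n * y ^ (n - 1))) (y₀ := 0) (y := t) hs Metric.isOpen_ball
    (convex_ball (0 : ℝ) r).isPreconnected (fun n y _ => (hasDerivAt_pow n y).const_mul (b n)) hg
    (Metric.mem_ball_self hr0) ?_ (by rw [mem_ball_zero_iff]; exact hr1)
  · have e : ∑' n : ℕ, b n * (n * t ^ (n - 1)) = ∑' n : ℕ, ((n : ℝ) + 1) * b (n + 1) * t ^ n := by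
      have hsum : Summable fun n : ℕ => b n * (n * t ^ (n - 1)) :=
        Summable.of_norm_bounded hs fun n => hg n t (by rw [mem_ball_zero_iff]; exact hr1)
      rw [hsum.tsum_eq_zero_add]
      simp only [Nat.cast_zero, zero_mul, mul_zero, zero_add, Nat.add_sub_cancel]
      refine tsum_congr fun n => ?_
      push_cast
      ring
    rw [← e]
    exact h
  · refine summable_of_ne_finset_zero (s := {0}) fun n hn => ?_
    rw [mem_singleton] at hn
    simp [hn]

/-- the coefficients of the logarithm -/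
noncomputable def l : ℕ → ℝ
  | 0 => 0
  | n + 1 => ak (n + 1) / (n + 1)

theorem l_nonneg (n : ℕ) : 0 ≤ l n := by
  cases n with
  | zero => exact le_rfl
  | succ n => exact div_nonneg (ak_nonneg _) (by positivity)

theorem l_le (n : ℕ) : l n ≤ 0.385 * ρ ^ n := by
  cases n with
  | zero => rw [l]; norm_num
  | succ n =>
    rw [l]
    refine (div_le_self (ak_nonneg _) ?_).trans (ak_le _)
    have : (0 : ℝ) ≤ n := Nat.cast_nonneg n
    linarith

theorem ρ_lt_one : ρ < 1 := ρ_lt.trans_lt (by norm_num)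

theorem geo_summable : Summable fun n : ℕ => 0.385 * ρ ^ n :=
  (summable_geometric_of_lt_one ρ_pos.le ρ_lt_one).mul_left _

theorem l_summable : Summable l := Summable.of_nonneg_of_le l_nonneg l_le geo_summable

theorem ak_bdd (n : ℕ) : |ak n| ≤ 0.385 := by
  rw [abs_of_nonneg (ak_nonneg n)]
  refine (ak_le n).trans ?_
  have := pow_le_one₀ (n := n) ρ_pos.le ρ_lt_one.le
  linarith

theorem l_bdd (n : ℕ) : |l n| ≤ 0.385 := by
  rw [abs_of_nonneg (l_nonneg n)]
  refine (l_le n).trans ?_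
  have := pow_le_one₀ (n := n) ρ_pos.le ρ_lt_one.le
  linarith

/-- **the closed form** -/
theorem m_lim : Tendsto m atTop (𝓝 (Real.exp (-∑' n : ℕ, ak (n + 1) / (n + 1)))) := by
  have hF : ContinuousOn (fun t : ℝ => ∑' n, f n * t ^ n) (Set.Icc 0 1) := by
    refine continuousOn_tsum (u := fun n => |f n|) (fun n => by fun_prop) abs_f_summable fun n x hx => ?_
    rw [norm_mul, norm_pow, Real.norm_eq_abs, Real.norm_eq_abs, abs_of_nonneg hx.1]
    exact mul_le_of_le_one_right (abs_nonneg _) (pow_le_one₀ hx.1 hx.2)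
  have hL : ContinuousOn (fun t : ℝ => ∑' n, l n * t ^ n) (Set.Icc 0 1) := by
    refine continuousOn_tsum (u := fun n => l n) (fun n => by fun_prop) l_summable fun n x hx => ?_
    rw [norm_mul, norm_pow, Real.norm_eq_abs, Real.norm_eq_abs, abs_of_nonneg hx.1, abs_of_nonneg (l_nonneg n)]
    exact mul_le_of_le_one_right (l_nonneg n) (pow_le_one₀ hx.1 hx.2)
  have hder : ∀ t ∈ Set.Ico (0 : ℝ) 1, HasDerivWithinAt
      (fun t : ℝ => (∑' n, f n * t ^ n) * Real.exp (∑' n, l n * t ^ n)) 0 (Set.Ici t) t := by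
    intro t ht
    have ht1 : |t| < 1 := by rw [abs_of_nonneg ht.1]; exact ht.2
    have h1 := deriv_ps (b := f) f_le ht1
    have h2 := deriv_ps (b := l) l_bdd ht1
    have e2 : ∑' n : ℕ, ((n : ℝ) + 1) * l (n + 1) * t ^ n = ∑' n : ℕ, ak (n + 1) * t ^ n := by
      refine tsum_congr fun n => ?_
      rw [l]
      have : (n : ℝ) + 1 ≠ 0 := by positivity
      field_simp
    rw [e2] at h2
    have hn1 : Summable fun n : ℕ => ‖ak (n + 1) * t ^ n‖ := by
      refine Summable.of_nonneg_of_le (fun _ => norm_nonneg _) (fun n => ?_)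
        ((summable_geometric_of_lt_one (abs_nonneg t) ht1).mul_left 0.385)
      rw [norm_mul, norm_pow, Real.norm_eq_abs, Real.norm_eq_abs]
      exact mul_le_mul_of_nonneg_right (ak_bdd _) (by positivity)
    have hn2 : Summable fun n : ℕ => ‖f n * t ^ n‖ := by
      refine Summable.of_nonneg_of_le (fun _ => norm_nonneg _) (fun n => ?_)
        ((summable_geometric_of_lt_one (abs_nonneg t) ht1).mul_left 2)
      rw [norm_mul, norm_pow, Real.norm_eq_abs, Real.norm_eq_abs]
      exact mul_le_mul_of_nonneg_right (f_le _) (by positivity)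
    have e1 : ∑' n : ℕ, ((n : ℝ) + 1) * f (n + 1) * t ^ n =
        -((∑' n : ℕ, ak (n + 1) * t ^ n) * ∑' n, f n * t ^ n) := by
      rw [tsum_mul_tsum_eq_tsum_sum_range_of_summable_norm hn1 hn2, ← tsum_neg]
      refine tsum_congr fun n => ?_
      rw [f_rec, neg_mul, sum_mul]
      congr 1
      refine sum_congr rfl fun k hk => ?_
      rw [mem_range] at hk
      have e3 : t ^ n = t ^ k * t ^ (n - k) := by rw [← pow_add]; congr 1; omega
      rw [e3]
      ring
    rw [e1] at h1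
    have h3 := (h1.mul h2.exp).hasDerivWithinAt (s := Set.Ici t)
    have e6 : (0 : ℝ) = -((∑' n : ℕ, ak (n + 1) * t ^ n) * ∑' n, f n * t ^ n) * Real.exp (∑' n, l n * t ^ n) +
        (∑' n, f n * t ^ n) * (Real.exp (∑' n, l n * t ^ n) * ∑' n : ℕ, ak (n + 1) * t ^ n) := by ring
    rw [e6]
    exact h3
  have hconst := constant_of_has_deriv_right_zero (hF.mul (Real.continuous_exp.comp_continuousOn hL)) hder 1
    (Set.right_mem_Icc.2 zero_le_one)
  have e0 : ∀ b : ℕ → ℝ, ∑' n, b n * (0 : ℝ) ^ n = b 0 := by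
    intro b
    rw [tsum_eq_single 0 (fun n hn => by simp [hn])]
    simp
  have hc2 : (∑' n, f n * (1 : ℝ) ^ n) * Real.exp (∑' n, l n * (1 : ℝ) ^ n) = 1 := by
    have := hconst
    simp only [Pi.mul_apply, Function.comp_apply] at this
    rw [this, e0, e0, f, l, m_zero, Real.exp_zero, one_mul]
  simp only [one_pow, mul_one] at hc2
  have e4 : ∑' n, l n = ∑' n : ℕ, ak (n + 1) / (n + 1) := by
    rw [l_summable.tsum_eq_zero_add]
    show 0 + _ = _
    rw [zero_add]
    rfl
  have e5 : ∑' n, f n = Real.exp (-∑' n : ℕ, ak (n + 1) / (n + 1)) := by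
    rw [Real.exp_neg, ← e4]
    exact eq_inv_of_mul_eq_one_left hc2
  have h6 := (Summable.of_abs abs_f_summable).hasSum.tendsto_sum_nat
  rw [e5] at h6
  have h7 := (tendsto_add_atTop_iff_nat 1).2 h6
  exact h7.congr f_sum

theorem kap_closed : Tendsto kap atTop (𝓝 (2 / 3 * Real.exp (-∑' n : ℕ, ak (n + 1) / (n + 1)))) := by
  have h := m_lim.const_mul (2 / 3)
  rw [← tendsto_add_atTop_iff_nat 1]
  exact h.congr fun K => (kap_m K).symm

end Pool.Agent.H623.KA
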