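import Pool.Agent.H623.KA.K3

/-!
# The digits of the constant
-/

set_option autoImplicit false

namespace Pool.Agent.H623.KA

open Finset Filter Topology
open Pool.Agent.H623.TG (mn on kap)

/-- the binomial coefficients of a row -/
def ch (n : ℕ) : ℕ → ℕ
  | 0 => 1
  | j + 1 => ch n j * (n - j) / (j + 1)

/-- the partial sums of a row -/
def sm (n : ℕ) : ℕ → ℕ
  | 0 => 0
  | j + 1 => sm n j + ch n j * (3 ^ j - 2 ^ n) * 3 ^ (n - j)

/-- the partial sums of the series, in units of `10 ^ (-20)` -/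
def S : ℕ → ℕ
  | 0 => 0
  | n + 1 => S n + (10 ^ 20 * sm (n + 1) (n + 2)) / (6 ^ (n + 1) * (n + 1))

theorem S_val : S 400 = 52259021956474555675 := by decide +kernel

theorem ch_eq (n j : ℕ) : ch n j = n.choose j := by
  induction j with
  | zero => rw [ch, Nat.choose_zero_right]
  | succ j ih =>
    rw [ch, ih, ← Nat.choose_succ_right_eq]
    exact Nat.mul_div_cancel _ (Nat.succ_pos j)

theorem sm_eq (n J : ℕ) (hJ : J ≤ n + 1) :
    (sm n J : ℝ) = 6 ^ n * ∑ j ∈ range J, (n.choose j : ℝ) * max 0 (1 / 2 ^ n - 1 / 3 ^ j) := by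
  induction J with
  | zero => simp [sm]
  | succ J ih =>
    rw [sum_range_succ, mul_add, ← ih (by omega), sm, ch_eq]
    push_cast
    congr 1
    have h2 : (0 : ℝ) < 2 ^ n := by positivity
    have h3 : (0 : ℝ) < 3 ^ J := by positivity
    have e6 : (6 : ℝ) ^ n = 2 ^ n * (3 ^ (n - J) * 3 ^ J) := by
      have e1 : n - J + J = n := by omega
      rw [← pow_add, e1, ← mul_pow]
      norm_num
    rcases le_total (2 ^ n) (3 ^ J) with h | h
    · have h' : (2 : ℝ) ^ n ≤ 3 ^ J := by exact_mod_cast h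
      rw [max_eq_right (by have := one_div_le_one_div_of_le h2 h'; linarith), Nat.cast_sub h, e6]
      push_cast
      field_simp
    · have h' : (3 : ℝ) ^ J ≤ 2 ^ n := by exact_mod_cast h
      rw [max_eq_left (by have := one_div_le_one_div_of_le h3 h'; linarith), Nat.sub_eq_zero_of_le h]
      simp

theorem S_bd (N : ℕ) : (S N : ℝ) / 10 ^ 20 ≤ ∑ n ∈ range N, ak (n + 1) / (n + 1) ∧
    ∑ n ∈ range N, ak (n + 1) / (n + 1) ≤ ((S N : ℝ) + N) / 10 ^ 20 := by
  induction N with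
  | zero => simp [S]
  | succ n ih =>
    rw [sum_range_succ]
    have hp : (0 : ℝ) < 6 ^ (n + 1) * (n + 1) := by positivity
    have e1 : (10 : ℝ) ^ 20 * sm (n + 1) (n + 2) / (6 ^ (n + 1) * (n + 1)) = 10 ^ 20 * (ak (n + 1) / (n + 1)) := by
      rw [sm_eq (n + 1) (n + 2) (by omega)]
      show _ * (_ * ak (n + 1)) / _ = _
      field_simp
    have h1 := Nat.div_mul_le_self (10 ^ 20 * sm (n + 1) (n + 2)) (6 ^ (n + 1) * (n + 1))
    have h2 := Nat.lt_div_mul_add (a := 10 ^ 20 * sm (n + 1) (n + 2)) (b := 6 ^ (n + 1) * (n + 1)) (by positivity)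
    generalize hq : (10 ^ 20 * sm (n + 1) (n + 2)) / (6 ^ (n + 1) * (n + 1)) = q at h1 h2
    have h1' : (q : ℝ) * (6 ^ (n + 1) * (n + 1)) ≤ 10 ^ 20 * sm (n + 1) (n + 2) := by exact_mod_cast h1
    have h2' : (10 : ℝ) ^ 20 * sm (n + 1) (n + 2) < (q + 1) * (6 ^ (n + 1) * (n + 1)) := by
      have : (10 : ℝ) ^ 20 * sm (n + 1) (n + 2) < q * (6 ^ (n + 1) * (n + 1)) + 6 ^ (n + 1) * (n + 1) := by
        exact_mod_cast h2
      linarith
    rw [← le_div_iff₀ hp, e1] at h1'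
    rw [← div_lt_iff₀ hp, e1] at h2'
    rw [S, hq]
    push_cast
    rw [div_le_iff₀ (by positivity), le_div_iff₀ (by positivity)] at *
    constructor <;> nlinarith [ih.1, ih.2]

theorem term_summable : Summable fun n : ℕ => ak (n + 1) / ((n : ℝ) + 1) := (summable_nat_add_iff 1).2 l_summable

theorem tail_bd (N : ℕ) : ∑' n : ℕ, ak (n + N + 1) / (((n + N : ℕ) : ℝ) + 1) ≤ 0.385 * ρ ^ (N + 1) / ((N + 1) * (1 - ρ)) := by
  have hs : Summable fun n : ℕ => 0.385 * ρ ^ (N + 1) / (N + 1) * ρ ^ n :=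
    (summable_geometric_of_lt_one ρ_pos.le ρ_lt_one).mul_left _
  have h := Summable.tsum_le_tsum (f := fun n : ℕ => ak (n + N + 1) / (((n + N : ℕ) : ℝ) + 1))
    (g := fun n : ℕ => 0.385 * ρ ^ (N + 1) / (N + 1) * ρ ^ n) (fun n => ?_)
    ((summable_nat_add_iff (f := fun n : ℕ => ak (n + 1) / ((n : ℝ) + 1)) N).2 term_summable) hs
  · refine h.trans (le_of_eq ?_)
    rw [tsum_mul_left, tsum_geometric_of_lt_one ρ_pos.le ρ_lt_one]
    have : (1 : ℝ) - ρ ≠ 0 := by linarith [ρ_lt_one]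
    field_simp
  · have h1 := ak_le (n + N + 1)
    have h2 : (N : ℝ) + 1 ≤ ((n + N : ℕ) : ℝ) + 1 := by push_cast; linarith [(Nat.cast_nonneg n : (0 : ℝ) ≤ n)]
    have h3 : (0 : ℝ) < (N : ℝ) + 1 := by positivity
    have hr := ρ_pos
    calc ak (n + N + 1) / (((n + N : ℕ) : ℝ) + 1) ≤ (0.385 * ρ ^ (n + N + 1)) / ((N : ℝ) + 1) :=
          div_le_div₀ (by positivity) h1 h3 h2
      _ = _ := by rw [show n + N + 1 = N + 1 + n by ring, pow_add _ (N + 1)]; ring

theorem ser_bd : 0.5225902195 ≤ ∑' n : ℕ, ak (n + 1) / ((n : ℝ) + 1) ∧ ∑' n : ℕ, ak (n + 1) / ((n : ℝ) + 1) ≤ 0.5225902457 := by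
  have h := S_bd 400
  rw [S_val] at h
  have e := term_summable.sum_add_tsum_nat_add 400
  have h0 : 0 ≤ ∑' n : ℕ, ak (n + 400 + 1) / (((n + 400 : ℕ) : ℝ) + 1) :=
    tsum_nonneg fun n => div_nonneg (ak_nonneg _) (by positivity)
  have h1 := tail_bd 400
  have h2 : ρ ^ 401 ≤ 0.0000009215 := by
    have a1 : ρ ^ 20 ≤ 0.49996 := (pow_le_pow_left₀ ρ_pos.le ρ_lt 20).trans (by norm_num)
    have a2 : ρ ^ 400 ≤ 0.49996 ^ 20 := by
      rw [show (400 : ℕ) = 20 * 20 by norm_num, pow_mul]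
      exact pow_le_pow_left₀ (pow_nonneg ρ_pos.le _) a1 20
    rw [pow_succ]
    calc ρ ^ 400 * ρ ≤ 0.49996 ^ 20 * 0.96593 := mul_le_mul a2 ρ_lt ρ_pos.le (by norm_num)
      _ ≤ _ := by norm_num
  have h3 : 0.385 * ρ ^ (400 + 1) / (((400 : ℕ) + 1 : ℝ) * (1 - ρ)) ≤ 0.000000026 := by
    have a3 : (0.03407 : ℝ) ≤ 1 - ρ := by linarith [ρ_lt]
    rw [div_le_iff₀ (by push_cast; nlinarith)]
    push_cast
    nlinarith
  push_cast at e h h0 h1 h3
  constructor
  · rw [← e]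
    have := h.1
    norm_num at this ⊢
    linarith
  · rw [← e]
    have := h.2
    norm_num at this ⊢
    linarith

theorem digits : 0.39532172 < 2 / 3 * Real.exp (-∑' n : ℕ, ak (n + 1) / ((n : ℝ) + 1)) ∧
    2 / 3 * Real.exp (-∑' n : ℕ, ak (n + 1) / ((n : ℝ) + 1)) < 0.39532174 := by
  obtain ⟨h1, h2⟩ := ser_bd
  set A := ∑' n : ℕ, ak (n + 1) / ((n : ℝ) + 1)
  rw [Real.exp_neg]
  have a1 : Real.exp A ≤ Real.exp 0.5225902457 := Real.exp_le_exp.2 h2
  have a2 : Real.exp 0.5225902195 ≤ Real.exp A := Real.exp_le_exp.2 h1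
  have b1 := Real.exp_bound' (x := 0.5225902457) (by norm_num) (by norm_num) (n := 12) (by norm_num)
  have b2 := Real.sum_le_exp_of_nonneg (x := 0.5225902195) (by norm_num) 12
  have c1 : Real.exp A < 2 / 3 / 0.39532172 := by
    refine (a1.trans b1).trans_lt ?_
    simp only [sum_range_succ, Finset.range_zero, sum_empty, Nat.factorial]
    norm_num
  have c2 : 2 / 3 / 0.39532174 < Real.exp A := by
    refine lt_of_lt_of_le ?_ (b2.trans a2)
    simp only [sum_range_succ, Finset.range_zero, sum_empty, Nat.factorial]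
    norm_num
  have hp := Real.exp_pos A
  rw [← div_eq_mul_inv]
  constructor
  · rw [lt_div_iff₀ hp]
    rw [lt_div_iff₀ (by norm_num)] at c1
    linarith
  · rw [div_lt_iff₀ hp]
    rw [div_lt_iff₀ (by norm_num)] at c2
    linarith

end Pool.Agent.H623.KA
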